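import Pool.Agent.Helper51.REC.Goals1
import Pool.Agent.Helper40.RD.TRF
import Pool.Agent.Helper42.RD.VAL
import Pool.Agent.Helper42.RS.RAM

/-!
# Project REC (MP_fc6b1e_nt): packet A, the relation between the symbols of the `S`-units
-/

set_option autoImplicit false

namespace Pool.Agent.Helper53.REC

open NumberField Module IsDedekindDomain Pool.Agent.Helper51.REC Pool.Agent.Helper51.RP
open Pool.Agent.Helper42.PP
open Pool.Agent.Helper40.RS (bel)
open Pool.Agent.Helper40.RD (bel_of_above valW)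
open Pool.Agent.Helper42.RD (ordv_eq_zero_iff)

section basics

variable {F E : Type} [Field F] [NumberField F] [Field E] [NumberField E] [Algebra F E]

theorem above_bel (w : HeightOneSpectrum (𝓞 E)) : Above w (bel F w) := rfl

theorem val_p {p : ℕ} {ε : F} {S : Set (HeightOneSpectrum (𝓞 F))} (hS : Sit p F ε S)
    {W : HeightOneSpectrum (𝓞 F)} (hW : W ∉ S) : W.valuation F (p : F) = 1 := by
  have h1 : W.valuation F (p : F) ≤ 1 := by
    have h : W.valuation F (algebraMap (𝓞 F) F (p : 𝓞 F)) ≤ 1 := W.valuation_le_one (p : 𝓞 F)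
    rwa [map_natCast (algebraMap (𝓞 F) F) p] at h
  rcases h1.lt_or_eq with h | h
  · exact absurd (hS.abp W h) hW
  · exact h

theorem inc_mem {S : Set (HeightOneSpectrum (𝓞 F))} {x : Fˣ} (hx : x ∈ S.unit F) :
    inc F E x ∈ (upS E S).unit E := by
  intro w hw
  have h1 : bel F w ∉ S := fun h ↦ hw ⟨bel F w, h, above_bel w⟩
  have h2 : (bel F w).valuation F (x : F) = 1 := hx _ h1
  have h3 : w.valuation E (algebraMap F E x) = 1 := by
    rw [valW, h2, one_pow]
  exact h3

theorem coe_pow {S : Set (HeightOneSpectrum (𝓞 F))} {σ : E ≃ₐ[F] E}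
    {σU : (upS E S).unit E ≃* (upS E S).unit E}
    (hσ : ∀ u, (((σU u : (upS E S).unit E) : Eˣ) : E) = σ ((u : Eˣ) : E)) (i : ℕ)
    (u : (upS E S).unit E) :
    ((((σU ^ i : MulAut ((upS E S).unit E)) u : (upS E S).unit E) : Eˣ) : E) =
      (σ ^ i) ((u : Eˣ) : E) := by
  induction i with
  | zero => rfl
  | succ i ih =>
    rw [pow_succ', pow_succ', MulAut.mul_apply, AlgEquiv.mul_apply, ← ih]
    exact hσ _

theorem coe_nmG (p : ℕ) {S : Set (HeightOneSpectrum (𝓞 F))} {σ : E ≃ₐ[F] E}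
    {σU : (upS E S).unit E ≃* (upS E S).unit E}
    (hσ : ∀ u, (((σU u : (upS E S).unit E) : Eˣ) : E) = σ ((u : Eˣ) : E))
    (u : (upS E S).unit E) :
    (((nmG p σU u : (upS E S).unit E) : Eˣ) : E) =
      ∏ i ∈ Finset.range p, (σ ^ i) ((u : Eˣ) : E) := by
  unfold nmG
  rw [MonoidHom.finsetProd_apply]
  have h := map_prod ((Units.coeHom E).comp ((upS E S).unit E).subtype)
    (fun i ↦ ((σU ^ i : MulAut ((upS E S).unit E)) : _ ≃* _).toMonoidHom u) (Finset.range p)
  exact h.trans (Finset.prod_congr rfl fun i _ ↦ coe_pow hσ i u)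

end basics

theorem h_a (h1 : K_BAS) (h2 : H_KUM) (h3 : H_RAM) (h4 : H_UNI) (h5 : H_HER) (h6 : H_H90) :
    Pool.Agent.Helper51.REC.H_A := by
  intro p hp F _ _ ε S hS β hβ hβ2 T hT
  classical
  obtain ⟨E, _, _, _, b, σ, hK⟩ := h2 p F ε hS.prim β hβ2
  obtain ⟨σU, hσ, hσp, hfg, hfix, n, hn1, hn2⟩ := h4 p F E ε S β b σ hS hK hβ
  obtain ⟨hne, hidx⟩ := h5 p ((upS E S).unit E) σU hσp n hn1 hn2
  have hle := h6 p F E ε S β b σ hS hK σU hσ T hT
  rw [hidx] at hle
  have hz : ∀ x ∈ S.unit F, ∀ W ∉ S, ordv W (x : F) = 0 := fun x hx W hW ↦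
    (ordv_eq_zero_iff W x.ne_zero).2 (hx W hW)
  have hTS : ∀ W ∈ T, W ∉ S := fun W hW ↦ ((hT W).1 hW).1
  -- the symbols
  let κ : S.unit F →* Multiplicative (T → ZMod p) :=
    MonoidHom.mk' (fun x ↦ Multiplicative.ofAdd fun W ↦ kap p ε W.1 (x : Fˣ)) (by
      intro x y
      rw [← ofAdd_add]
      congr 1
      funext W
      have hW := hTS W.1 W.2
      exact (h1 p F ε hS.prim W.1 (val_p hS hW)).2.2.2.1 x y
        (by rw [hz x x.2 W.1 hW]; exact dvd_zero _) (by rw [hz y y.2 W.1 hW]; exact dvd_zero _))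
  let ψ : S.unit F →* fixG σU :=
    MonoidHom.mk' (fun x ↦ ⟨⟨inc F E x, inc_mem x.2⟩, (hfix _).2 ⟨x, x.2, rfl⟩⟩) (by
      intro x y
      apply Subtype.ext
      apply Subtype.ext
      exact map_mul (inc F E) (x : Fˣ) (y : Fˣ))
  have hker : ((nmG p σU).range.subgroupOf (fixG σU)).comap ψ ≤ κ.ker := by
    intro x hx
    rw [MonoidHom.mem_ker]
    show Multiplicative.ofAdd (fun W : T ↦ kap p ε W.1 (x : Fˣ)) = 1
    have hx2 : (⟨inc F E x, inc_mem x.2⟩ : (upS E S).unit E) ∈ (nmG p σU).range := hx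
    obtain ⟨u, hu⟩ := hx2
    rw [← ofAdd_zero]
    congr 1
    funext W
    have hW := (hT W.1).1 W.2
    obtain ⟨w, hw⟩ := Pool.Agent.Helper42.RS.exists_above (H := E) W.1
    have hw2 : Above w W.1 := hw.over.symm
    have hwS : w ∉ upS E S := by
      rintro ⟨v, hv, hwv⟩
      have h7 : v = W.1 := by
        rw [← bel_of_above hwv, ← bel_of_above hw2]
      exact hW.1 (h7 ▸ hv)
    have h8 : w.valuation E ((u : Eˣ) : E) = 1 := u.2 w hwS
    have h9 : algebraMap F E ((x : Fˣ) : F) = ∏ i ∈ Finset.range p, (σ ^ i) ((u : Eˣ) : E) := by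
      rw [← coe_nmG p hσ u, hu]
      rfl
    have h10 := (((h3 p F E ε β b σ hS.prim hK W.1 (val_p hS hW.1)).2 hW.2).2 w hw2).2 u x h8 h9
    exact ((h1 p F ε hS.prim W.1 (val_p hS hW.1)).2.2.2.2.2.1 x
      (by rw [hz x x.2 W.1 hW.1]; exact dvd_zero _)).2 h10
  have hi0 : ((nmG p σU).range.subgroupOf (fixG σU)).index ≠ 0 := hne
  have hd : κ.ker.index ∣ ((nmG p σU).range.subgroupOf (fixG σU)).index := by
    refine (Subgroup.index_dvd_of_le hker).trans ?_
    rw [Subgroup.index_comap]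
    exact Subgroup.relIndex_dvd_index_of_normal _ _
  have hcard : Nat.card κ.range < Nat.card (Multiplicative (T → ZMod p)) := by
    rw [← Subgroup.index_ker]
    have h7 : Nat.card (Multiplicative (T → ZMod p)) = p ^ T.card := by
      rw [Nat.card_congr Multiplicative.toAdd, Nat.card_pi]
      simp
    rw [h7]
    have h8 := Nat.le_of_dvd (Nat.pos_of_ne_zero hi0) hd
    have h9 : 1 < p := hp.out.one_lt
    have h10 : 0 < ((nmG p σU).range.subgroupOf (fixG σU)).index := Nat.pos_of_ne_zero hi0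
    have h11 : p * ((nmG p σU).range.subgroupOf (fixG σU)).index ≤ p ^ T.card := hle
    nlinarith
  -- the subspace
  let V : AddSubgroup (T → ZMod p) :=
    { carrier := {f | Multiplicative.ofAdd f ∈ κ.range}
      add_mem' := fun {f g} hf hg ↦ by
        simp only [Set.mem_ofPred_eq, ofAdd_add] at *
        exact mul_mem hf hg
      zero_mem' := one_mem κ.range
      neg_mem' := fun {f} hf ↦ by
        simp only [Set.mem_ofPred_eq, ofAdd_neg] at *
        exact inv_mem hf }
  have hVt : AddSubgroup.toZModSubmodule p V < ⊤ := by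
    rw [lt_top_iff_ne_top]
    intro h
    have h7 : κ.range = ⊤ := by
      rw [Subgroup.eq_top_iff']
      intro f
      have h8 : f.toAdd ∈ AddSubgroup.toZModSubmodule p V := by
        rw [h]
        exact Submodule.mem_top
      exact h8
    rw [h7, Subgroup.card_top] at hcard
    exact lt_irrefl _ hcard
  obtain ⟨φ, hφ, hφ2⟩ := Submodule.exists_le_ker_of_lt_top _ hVt
  refine ⟨fun W ↦ if h : W ∈ T then φ (Pi.single ⟨W, h⟩ 1) else 0, ?_, ?_⟩
  · by_contra hcon
    push Not at hcon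
    apply hφ
    apply LinearMap.pi_ext'
    intro W
    apply LinearMap.ext_ring
    have h7 := hcon W.1 W.2
    rw [dif_pos W.2] at h7
    exact h7
  · intro x hx
    have h7 : φ (fun W : T ↦ kap p ε W.1 x) = 0 := by
      have h8 : (fun W : T ↦ kap p ε W.1 x) ∈ AddSubgroup.toZModSubmodule p V := by
        show Multiplicative.ofAdd (fun W : T ↦ kap p ε W.1 x) ∈ κ.range
        exact ⟨⟨x, hx⟩, rfl⟩
      exact hφ2 h8
    rw [← Finset.sum_coe_sort]
    rw [LinearMap.pi_apply_eq_sum_univ φ] at h7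
    refine (Finset.sum_congr rfl fun W _ ↦ ?_).trans h7
    beta_reduce
    rw [dif_pos W.2, smul_eq_mul, mul_comm]
    congr 2
    funext W'
    rw [Pi.single_apply]
    congr 1
    exact propext eq_comm

end Pool.Agent.Helper53.REC
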