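import Pool.Agent.Helper51.REC.Goals1

/-!
# Project REC (MP_fc6b1e_nt): packet KUM, Kummer extensions exist
-/

set_option autoImplicit false

namespace Pool.Agent.Helper53.REC

open Polynomial NumberField Pool.Agent.Helper51.REC Pool.Agent.Helper51.RP Module

theorem h_kum : Pool.Agent.Helper51.REC.H_KUM := by
  intro p hp F _ _ ε hε β hβ
  have hpp : p.Prime := hp.out
  have h0 : ∀ b : F, b ^ p ≠ (β : F) := by
    intro b hb
    apply hβ
    have hb0 : b ≠ 0 := by
      rintro rfl
      rw [zero_pow hpp.ne_zero] at hb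
      exact β.ne_zero hb.symm
    refine ⟨Units.mk0 b hb0, ?_⟩
    apply Units.ext
    rw [Units.val_pow_eq_pow_val, Units.val_mk0, hb]
  have H : Irreducible (X ^ p - C (β : F)) := X_pow_sub_C_irreducible_of_prime hpp h0
  have hζ : (primitiveRoots p F).Nonempty := ⟨ε, (mem_primitiveRoots hpp.pos).2 hε⟩
  have : Fact (Irreducible (X ^ p - C (β : F))) := ⟨H⟩
  have : IsSplittingField F (AdjoinRoot (X ^ p - C (β : F))) (X ^ p - C (β : F)) :=
    isSplittingField_AdjoinRoot_X_pow_sub_C hζ H
  have hfd : FiniteDimensional F (AdjoinRoot (X ^ p - C (β : F))) :=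
    Polynomial.IsSplittingField.finiteDimensional (AdjoinRoot (X ^ p - C (β : F)))
      (X ^ p - C (β : F))
  have hNF : NumberField (AdjoinRoot (X ^ p - C (β : F))) := NumberField.of_module_finite F _
  refine ⟨AdjoinRoot (X ^ p - C (β : F)), inferInstance, hNF, inferInstance,
    AdjoinRoot.root _, autAdjoinRootXPowSubC p (β : F) hε.toRootsOfUnity, ?_⟩
  constructor
  · exact isGalois_of_isSplittingField_X_pow_sub_C hζ H (AdjoinRoot (X ^ p - C (β : F)))
  · exact finrank_of_isSplittingField_X_pow_sub_C hζ H (AdjoinRoot (X ^ p - C (β : F)))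
  · exact root_X_pow_sub_C_pow p (β : F)
  · rw [autAdjoinRootXPowSubC_root, Algebra.smul_def]
    rfl

end Pool.Agent.Helper53.REC
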