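import Pool.Agent.Helper51.REC.Goals2
import Pool.Agent.Helper53.REC.HKUM
import Pool.Agent.Helper40.RD.TRF
import Pool.Agent.Helper42.RS.RAM
import Pool.Agent.Helper84.RSP.KUM
import Pool.Agent.Helper84.RSP.SPL
import Pool.Agent.Helper99.RSP.QEX
import Pool.Agent.Helper59.RS.PSM
import Pool.Agent.Helper58.RS.EUL
import Pool.Agent.Helper61.RS.ZET

/-!
# Project REC (MP_fc6b1e_nt): packet UPP, the upper density
-/

set_option autoImplicit false

namespace Pool.Agent.Helper53.REC

open NumberField Module IsDedekindDomain Pool.Agent.Helper51.REC Pool.Agent.Helper51.RP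
open Pool.Agent.Helper42.PP
open Pool.Agent.Helper38.RS (pz)
open Pool.Agent.Helper40.RS (bel)
open Pool.Agent.Helper40.RD (bel_of_above valW)

theorem psm : Pool.Agent.Helper38.RS.S_PSM :=
  Pool.Agent.Helper59.RS.s_psm Pool.Agent.Helper58.RS.s_eul
    (Pool.Agent.Helper61.RS.s_zet Pool.Agent.Helper58.RS.s_eul)

/-- The primes of `A` have `p` primes above them in `B`, of the same norm. -/
theorem count_set (F E : Type) [Field F] [NumberField F] [Field E] [NumberField E]
    [Algebra F E] (p : ℕ) (A : Set (HeightOneSpectrum (𝓞 F))) (B : Set (HeightOneSpectrum (𝓞 E)))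
    (hA : ∀ v ∈ A, ∃ w : Fin p → HeightOneSpectrum (𝓞 E), Function.Injective w ∧
      ∀ i, w i ∈ B ∧ (w i).asIdeal.comap (algebraMap (𝓞 F) (𝓞 E)) = v.asIdeal ∧
        Ideal.absNorm (w i).asIdeal = Ideal.absNorm v.asIdeal)
    (s : ℝ) (hs : 1 < s) : (p : ℝ) * pz A s ≤ pz B s := by
  have hch : ∀ v : A, ∃ w : Fin p → HeightOneSpectrum (𝓞 E), Function.Injective w ∧
      ∀ i, w i ∈ B ∧ (w i).asIdeal.comap (algebraMap (𝓞 F) (𝓞 E)) = v.1.asIdeal ∧
        Ideal.absNorm (w i).asIdeal = Ideal.absNorm v.1.asIdeal := fun v => hA v.1 v.2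
  choose w hw hc using hch
  let e : (Σ _ : Fin p, A) → B := fun a => ⟨w a.2 a.1, (hc a.2 a.1).1⟩
  have hinj : Function.Injective e := by
    rintro ⟨i, a⟩ ⟨j, b⟩ hab
    have h : w a i = w b j := congrArg Subtype.val hab
    have h1 : a.1.asIdeal = b.1.asIdeal := by rw [← (hc a i).2.1, ← (hc b j).2.1, h]
    have h3 : a = b := Subtype.ext (HeightOneSpectrum.ext h1)
    subst h3
    have h4 : i = j := hw a h
    subst h4
    rfl
  have hsA : Summable (fun v : A => (Ideal.absNorm v.1.asIdeal : ℝ) ^ (-s)) :=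
    (Helper84.RS.summable_norm F s hs).subtype A
  have hsB : Summable (fun v : B => (Ideal.absNorm v.1.asIdeal : ℝ) ^ (-s)) :=
    (Helper84.RS.summable_norm E s hs).subtype B
  let f : (Σ _ : Fin p, A) → ℝ := fun a => (Ideal.absNorm a.2.1.asIdeal : ℝ) ^ (-s)
  have hf : HasSum f ((p : ℝ) * pz A s) := by
    have h1 : HasSum (fun _ : Fin p => pz A s) ((p : ℝ) * pz A s) := by
      have h2 := hasSum_fintype (fun _ : Fin p => pz A s)
      rw [Finset.sum_const, Finset.card_univ, Fintype.card_fin, nsmul_eq_mul] at h2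
      exact h2
    have hfs : Summable f := (summable_sigma_of_nonneg (fun a => by positivity)).mpr
      ⟨fun _ => hsA, (hasSum_fintype _).summable⟩
    have h3 : ∑' a, f a = (p : ℝ) * pz A s := (hfs.hasSum.sigma (fun i => hsA.hasSum)).unique h1
    rw [← h3]
    exact hfs.hasSum
  have hle : ∑' a, f a ≤ pz B s := by
    unfold pz
    apply Summable.tsum_le_tsum_of_inj e hinj
    · intro b _
      positivity
    · intro a
      show (Ideal.absNorm a.2.1.asIdeal : ℝ) ^ (-s) ≤ (Ideal.absNorm (w a.2 a.1).asIdeal : ℝ) ^ (-s)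
      rw [(hc a.2 a.1).2.2]
    · exact hf.summable
    · exact hsB
  rw [hf.tsum_eq] at hle
  exact hle

/-- Kummer theory: the `p`-th powers of `F(β^(1/p))` in `F`. -/
theorem kummer {p : ℕ} (hp : p.Prime) {F E : Type} [Field F] [NumberField F] [Field E]
    [NumberField E] [Algebra F E] {ε : F} (hε : IsPrimitiveRoot ε p) {β : Fˣ} {b : E}
    {σ : E ≃ₐ[F] E} (hK : Kum p ε β b σ) {z : Fˣ} (hz : Pw p (inc F E z)) :
    ∃ (c : ℕ) (t : Fˣ), z = β ^ c * t ^ p := by
  obtain ⟨w, hw⟩ := hz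
  have hb0 : b ≠ 0 := by
    rintro rfl
    have h := hK.root
    rw [zero_pow hp.ne_zero] at h
    exact (map_ne_zero (algebraMap F E)).2 β.ne_zero h.symm
  have hw1 : algebraMap F E (z : F) = (w : E) ^ p := by
    have h := congrArg (fun u : Eˣ ↦ (u : E)) hw
    exact h
  have hεE : IsPrimitiveRoot (algebraMap F E ε) p := hε.map_of_injective (algebraMap F E).injective
  have h1 : (σ (w : E) / w) ^ p = 1 := by
    rw [div_pow, ← map_pow, ← hw1, AlgEquiv.commutes, div_self]
    exact (map_ne_zero (algebraMap F E)).2 z.ne_zero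
  have : NeZero p := ⟨hp.ne_zero⟩
  obtain ⟨a, ha, ha2⟩ := hεE.eq_pow_of_pow_eq_one h1
  have h2 : σ (w : E) = algebraMap F E ε ^ a * w := by
    rw [ha2, div_mul_cancel₀ _ w.ne_zero]
  have hσ : σ ≠ 1 := by
    rintro rfl
    have h := hK.act
    rw [AlgEquiv.one_apply] at h
    have h3 : algebraMap F E ε = 1 := by
      have h4 : 1 * b = algebraMap F E ε * b := by rw [one_mul]; exact h
      exact (mul_right_cancel₀ hb0 h4).symm
    rw [h3] at hεE
    exact hp.one_lt.ne' (hεE.unique IsPrimitiveRoot.one)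
  have h3 : σ ((w : E) / b ^ a) = (w : E) / b ^ a := by
    rw [map_div₀, map_pow, h2, hK.act, mul_pow, mul_div_mul_left _ _
      (pow_ne_zero a (hεE.ne_zero hp.ne_zero))]
  obtain ⟨t, ht⟩ := Pool.Agent.Helper42.RS.mem_of_fixed hp hK.deg σ hσ _ h3
  have ht0 : t ≠ 0 := by
    rintro rfl
    rw [map_zero] at ht
    exact div_ne_zero w.ne_zero (pow_ne_zero a hb0) ht.symm
  refine ⟨a, Units.mk0 t ht0, ?_⟩
  apply Units.ext
  apply (algebraMap F E).injective
  rw [hw1, Units.val_mul, Units.val_pow_eq_pow_val, Units.val_pow_eq_pow_val, Units.val_mk0,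
    map_mul, map_pow, map_pow, ht, ← hK.root, div_pow, ← pow_mul, ← pow_mul, mul_comm p a,
    mul_div_cancel₀ _ (pow_ne_zero _ hb0)]

theorem l_upp : Pool.Agent.Helper51.REC.L_UPP := by
  intro p hpf m
  have hp : p.Prime := hpf.out
  induction m with
  | zero =>
    intro F _ _ ε hε y hy
    obtain ⟨C, hC⟩ := psm F
    refine ⟨C, fun s hs1 hs2 ↦ ?_⟩
    have h1 := (abs_le.mp (hC s hs1 hs2)).2
    have h2 := Pool.Agent.Helper99.RS.pz_mono (Set.subset_univ
      {v : HeightOneSpectrum (𝓞 F) | v.valuation F (p : F) = 1 ∧ ∀ i, LocPow p v (y i : F)}) s hs1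
    rw [pow_zero, div_one, one_mul]
    linarith
  | succ m ih =>
    intro F _ _ ε hε y hy
    have hlast : ¬ Pw p (y (Fin.last m)) := by
      intro h
      have h1 := hy (Pi.single (Fin.last m) 1) (by
        rw [Finset.prod_eq_single (Fin.last m)]
        · rw [Pi.single_eq_same, pow_one]
          exact h
        · intro i _ hi
          rw [Pi.single_eq_of_ne hi, pow_zero]
        · intro h2
          exact absurd (Finset.mem_univ _) h2) (Fin.last m)
      rw [Pi.single_eq_same] at h1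
      exact hp.one_lt.ne' (Nat.dvd_one.1 h1)
    obtain ⟨E, _, _, _, b, σ, hK⟩ := h_kum p F ε hε (y (Fin.last m)) hlast
    have hεE : IsPrimitiveRoot (algebraMap F E ε) p :=
      hε.map_of_injective (algebraMap F E).injective
    obtain ⟨C, hC⟩ := ih E (algebraMap F E ε) hεE (fun i ↦ inc F E (y i.castSucc)) (by
      intro a ha i
      have h1 : Pw p (inc F E (∏ i : Fin m, y i.castSucc ^ a i)) := by
        rw [map_prod]
        simp only [map_pow]
        exact ha
      obtain ⟨c, t, ht⟩ := kummer hp hε hK h1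
      have h2 := hy (Fin.snoc (α := fun _ ↦ ℕ) a (c * (p - 1))) (by
        rw [Fin.prod_univ_castSucc]
        simp only [Fin.snoc_castSucc, Fin.snoc_last]
        rw [ht]
        refine ⟨y (Fin.last m) ^ c * t, ?_⟩
        have h3 : c + c * (p - 1) = c * p := by
          obtain ⟨q, rfl⟩ : ∃ q, p = q + 1 := ⟨p - 1, (Nat.succ_pred_eq_of_pos hp.pos).symm⟩
          rw [Nat.add_sub_cancel]
          ring
        rw [mul_right_comm, ← pow_add, h3, mul_pow, ← pow_mul]) i.castSucc
      rwa [Fin.snoc_castSucc] at h2)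
    have hp0 : (0 : ℝ) < (p : ℝ) := by exact_mod_cast hp.pos
    refine ⟨C / p, fun s hs1 hs2 ↦ ?_⟩
    have hnp : ¬ ∃ x : F, x ^ p = (y (Fin.last m) : F) := by
      rintro ⟨x, hx⟩
      apply hlast
      have hx0 : x ≠ 0 := by
        rintro rfl
        rw [zero_pow hp.ne_zero] at hx
        exact (y (Fin.last m)).ne_zero hx.symm
      exact ⟨Units.mk0 x hx0, Units.ext (by
        rw [Units.val_pow_eq_pow_val, Units.val_mk0, hx])⟩
    have hA := count_set F E p
      {v : HeightOneSpectrum (𝓞 F) | v.valuation F (p : F) = 1 ∧ ∀ i, LocPow p v (y i : F)}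
      {w : HeightOneSpectrum (𝓞 E) | w.valuation E (p : E) = 1 ∧
        ∀ i : Fin m, LocPow p w ((inc F E (y i.castSucc) : Eˣ) : E)}
      (by
        rintro v ⟨hv1, hv2⟩
        obtain ⟨w, hw1, hw2⟩ := Pool.Agent.Helper84.RSP.sp_spl p F E ε (y (Fin.last m) : F) b hε
          hK.deg hK.root hnp v hv1 (hv2 (Fin.last m))
        refine ⟨w, hw1, fun i ↦ ⟨⟨?_, fun j ↦ ?_⟩, hw2 i⟩⟩
        · have h1 : bel F (w i) = v := bel_of_above (hw2 i).1
          have h2 : (w i).valuation E (algebraMap F E (p : F)) = 1 := by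
            rw [valW, h1, hv1, one_pow]
          rwa [map_natCast] at h2
        · exact Pool.Agent.Helper99.RSP.locPow_up p v (w i) ⟨(hw2 i).1.symm⟩ _ (hv2 j.castSucc))
      s hs1
    have h3 := hC s hs1 hs2
    rw [pow_succ', show 1 / ((p : ℝ) * (p : ℝ) ^ m) * Real.log (1 / (s - 1)) + C / p =
      (1 / (p : ℝ) ^ m * Real.log (1 / (s - 1)) + C) / p by
        rw [add_div, one_div, mul_inv, one_div, div_eq_inv_mul _ (p : ℝ)]
        ring, le_div_iff₀ hp0, mul_comm]
    exact hA.trans h3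

end Pool.Agent.Helper53.REC
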